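import Pool.Agent.MDG.Stmts

/-!
# Squad MDG, row BLO: maximal k-edge-connected subgraphs
-/

set_option autoImplicit false

open Finset Pool.Agent.HEC

namespace Pool.Agent.MDG.H59

open Pool.Agent.MDG

variable {V : Type} [Fintype V]

/-- a blob: a nonempty set which is k-edge-connected -/
def Blob (H : SimpleGraph V) (k : ℕ) (B : Finset V) : Prop :=
  B.Nonempty ∧ ∀ A : Finset V, A ⊆ B → A.Nonempty → A ≠ B → k ≤ cut (res H B) A

lemma cnt_mono {α : Type} [Fintype α] {p q : α → Prop} (h : ∀ x, p x → q x) : cnt p ≤ cnt q := by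
  classical
  unfold cnt
  refine Finset.card_le_card ?_
  intro x hx
  simp only [Finset.mem_filter, Finset.mem_univ, true_and] at hx ⊢
  exact h x hx

open Classical in
lemma cut_mono (H : SimpleGraph V) (B C A : Finset V) (hBC : B ⊆ C) :
    cut (res H B) (A ∩ B) ≤ cut (res H C) A := by
  unfold cut
  refine cnt_mono ?_
  rintro ⟨a, b⟩ ⟨h1, h2, h3, h4, h5⟩
  simp only at h1 h2 h3 h4 h5 ⊢
  rw [Finset.mem_inter] at h1 h2
  exact ⟨h1.1, fun h => h2 ⟨h, h5⟩, h3, hBC h4, hBC h5⟩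

open Classical in
lemma blob_union (H : SimpleGraph V) (k : ℕ) (B B' : Finset V) (h : Blob H k B) (h' : Blob H k B')
    (w : V) (hw : w ∈ B) (hw' : w ∈ B') : Blob H k (B ∪ B') := by
  refine ⟨⟨w, Finset.mem_union_left _ hw⟩, ?_⟩
  intro A hA hAn hne
  by_cases c1 : (A ∩ B).Nonempty ∧ A ∩ B ≠ B
  · exact (h.2 (A ∩ B) Finset.inter_subset_right c1.1 c1.2).trans
      (cut_mono H B (B ∪ B') A Finset.subset_union_left)
  by_cases c2 : (A ∩ B').Nonempty ∧ A ∩ B' ≠ B'
  · exact (h'.2 (A ∩ B') Finset.inter_subset_right c2.1 c2.2).trans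
      (cut_mono H B' (B ∪ B') A Finset.subset_union_right)
  exfalso
  push Not at c1 c2
  by_cases hwA : w ∈ A
  · have e1 := c1 ⟨w, Finset.mem_inter.mpr ⟨hwA, hw⟩⟩
    have e2 := c2 ⟨w, Finset.mem_inter.mpr ⟨hwA, hw'⟩⟩
    apply hne
    apply Finset.Subset.antisymm hA
    apply Finset.union_subset
    · rw [← e1]; exact Finset.inter_subset_left
    · rw [← e2]; exact Finset.inter_subset_left
  · obtain ⟨a, ha⟩ := hAn
    have hab := hA ha
    rw [Finset.mem_union] at hab
    rcases hab with hb | hb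
    · have e1 := c1 ⟨a, Finset.mem_inter.mpr ⟨ha, hb⟩⟩
      rw [← e1] at hw
      exact hwA (Finset.mem_inter.mp hw).1
    · have e2 := c2 ⟨a, Finset.mem_inter.mpr ⟨ha, hb⟩⟩
      rw [← e2] at hw'
      exact hwA (Finset.mem_inter.mp hw').1

open Classical in
/-- the class of `v` -/
noncomputable def Cl (H : SimpleGraph V) (k : ℕ) (v : V) : Finset V :=
  Finset.univ.filter fun u => ∃ B : Finset V, Blob H k B ∧ v ∈ B ∧ u ∈ B

lemma mem_Cl (H : SimpleGraph V) (k : ℕ) (v u : V) :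
    u ∈ Cl H k v ↔ ∃ B : Finset V, Blob H k B ∧ v ∈ B ∧ u ∈ B := by
  classical
  unfold Cl
  simp

lemma blob_single (H : SimpleGraph V) (k : ℕ) (v : V) : Blob H k {v} := by
  refine ⟨⟨v, Finset.mem_singleton_self v⟩, ?_⟩
  intro A hA hAn hne
  exfalso
  rcases Finset.subset_singleton_iff.mp hA with h | h
  · rw [h] at hAn
    exact Finset.not_nonempty_empty hAn
  · exact hne h

lemma self_Cl (H : SimpleGraph V) (k : ℕ) (v : V) : v ∈ Cl H k v :=
  (mem_Cl H k v v).mpr ⟨{v}, blob_single H k v, Finset.mem_singleton_self v,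
    Finset.mem_singleton_self v⟩

lemma blob_Cl (H : SimpleGraph V) (k : ℕ) (v : V) : Blob H k (Cl H k v) := by
  classical
  have hne : (Finset.univ.filter fun B : Finset V => Blob H k B ∧ v ∈ B).Nonempty :=
    ⟨{v}, by simp [blob_single H k v]⟩
  obtain ⟨B, hB, hmax⟩ := Finset.exists_max_image _ Finset.card hne
  simp only [Finset.mem_filter, Finset.mem_univ, true_and] at hB hmax
  have e : Cl H k v = B := by
    apply Finset.Subset.antisymm
    · intro u hu
      obtain ⟨B', hB', hv, hu'⟩ := (mem_Cl H k v u).mp hu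
      have h1 := hmax (B ∪ B') ⟨blob_union H k B B' hB.1 hB' v hB.2 hv,
        Finset.mem_union_left _ hB.2⟩
      have h2 : B = B ∪ B' := Finset.eq_of_subset_of_card_le Finset.subset_union_left h1
      rw [h2]
      exact Finset.mem_union_right _ hu'
    · intro u hu
      exact (mem_Cl H k v u).mpr ⟨B, hB.1, hB.2, hu⟩
  rw [e]
  exact hB.1

lemma Cl_eq (H : SimpleGraph V) (k : ℕ) (u v : V) (h : u ∈ Cl H k v) : Cl H k u = Cl H k v := by
  classical
  have key : ∀ a b : V, a ∈ Cl H k b → Cl H k a ⊆ Cl H k b := by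
    intro a b hab x hx
    obtain ⟨B, hB, h1, h2⟩ := (mem_Cl H k a x).mp hx
    exact (mem_Cl H k b x).mpr ⟨B ∪ Cl H k b, blob_union H k B _ hB (blob_Cl H k b) a h1 hab,
      Finset.mem_union_right _ (self_Cl H k b), Finset.mem_union_left _ h2⟩
  apply Finset.Subset.antisymm (key u v h)
  apply key v u
  obtain ⟨B, hB, h1, h2⟩ := (mem_Cl H k v u).mp h
  exact (mem_Cl H k u v).mpr ⟨B, hB, h2, h1⟩

/-- representative of a nonempty set -/
noncomputable def rp (B : {B : Finset V // B.Nonempty}) : V := B.2.choose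

/-- representative of the class of `v` -/
noncomputable def pp (H : SimpleGraph V) (k : ℕ) (v : V) : V :=
  rp ⟨Cl H k v, ⟨v, self_Cl H k v⟩⟩

lemma pp_mem (H : SimpleGraph V) (k : ℕ) (v : V) : pp H k v ∈ Cl H k v :=
  Exists.choose_spec (⟨v, self_Cl H k v⟩ : (Cl H k v).Nonempty)

lemma pp_eq (H : SimpleGraph V) (k : ℕ) (u v : V) (h : Cl H k u = Cl H k v) :
    pp H k u = pp H k v := by
  unfold pp
  congr 1
  exact Subtype.ext h

lemma mem_nde (p : V → V) (w v : V) : v ∈ nde p w ↔ p v = w := by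
  classical
  unfold nde
  simp

theorem blo : BloStmt := by
  classical
  intro V _ H k _
  have hpp : ∀ v, pp H k (pp H k v) = pp H k v := fun v =>
    pp_eq H k _ _ (Cl_eq H k _ _ (pp_mem H k v))
  have hnde : ∀ w, pp H k w = w → nde (pp H k) w = Cl H k w := by
    intro w hw
    ext v
    rw [mem_nde]
    constructor
    · intro h
      have h1 := pp_mem H k v
      rw [h] at h1
      rw [Cl_eq H k w v h1]
      exact self_Cl H k v
    · intro h
      rw [pp_eq H k v w (Cl_eq H k v w h), hw]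
  have hcl : ∀ (w : V) (A : Finset V), A ⊆ nde (pp H k) w → A.Nonempty → A ≠ nde (pp H k) w →
      k ≤ cut (res H (nde (pp H k) w)) A := by
    intro w A hA hAn hne
    by_cases hw : pp H k w = w
    · rw [hnde w hw] at hA hne ⊢
      exact (blob_Cl H k w).2 A hA hAn hne
    · exfalso
      obtain ⟨a, ha⟩ := hAn
      have h1 := (mem_nde _ _ _).mp (hA ha)
      apply hw
      rw [← h1]
      exact hpp a
  refine ⟨pp H k, hpp, hcl, ?_⟩
  intro X hX hcard
  set p := pp H k with hp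
  set B : Finset V := X.biUnion (nde p) with hB
  have hself : ∀ w ∈ X, w ∈ nde p w := fun w hw => (mem_nde _ _ _).mpr (hX w hw)
  obtain ⟨w1, hw1, w2, hw2, h12⟩ := Finset.one_lt_card.mp (by omega : 1 < X.card)
  have hBm : ∀ w ∈ X, w ∈ B := fun w hw => Finset.mem_biUnion.mpr ⟨w, hw, hself w hw⟩
  have hnB : ¬ Blob H k B := by
    intro hb
    apply h12
    have h1 : w2 ∈ Cl H k w1 := (mem_Cl H k w1 w2).mpr ⟨B, hb, hBm w1 hw1, hBm w2 hw2⟩
    have h2 := pp_eq H k w2 w1 (Cl_eq H k w2 w1 h1)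
    have h3 := hX w1 hw1
    have h4 := hX w2 hw2
    rw [hp] at h3 h4
    rw [← h3, ← h4]
    exact h2.symm
  have hex : ∃ A : Finset V, A ⊆ B ∧ A.Nonempty ∧ A ≠ B ∧ cut (res H B) A < k := by
    by_contra hcon
    push Not at hcon
    exact hnB ⟨⟨w1, hBm w1 hw1⟩, fun A h1 h2 h3 => hcon A h1 h2 h3⟩
  obtain ⟨A, hAB, hAn, hAne, hcut⟩ := hex
  have hsub : ∀ w ∈ X, nde p w ⊆ B := fun w hw a ha => Finset.mem_biUnion.mpr ⟨w, hw, ha⟩
  have hdich : ∀ w ∈ X, (A ∩ nde p w).Nonempty → A ∩ nde p w = nde p w := by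
    intro w hw hn
    by_contra hne
    have h1 := hcl w (A ∩ nde p w) Finset.inter_subset_right hn hne
    have h2 := cut_mono H (nde p w) B A (hsub w hw)
    omega
  have hall : ∀ w ∈ X, ∀ a ∈ nde p w, (a ∈ A ↔ w ∈ A) := by
    intro w hw a ha
    constructor
    · intro h
      have e := hdich w hw ⟨a, Finset.mem_inter.mpr ⟨h, ha⟩⟩
      have h2 := hself w hw
      rw [← e] at h2
      exact (Finset.mem_inter.mp h2).1
    · intro h
      have e := hdich w hw ⟨w, Finset.mem_inter.mpr ⟨h, hself w hw⟩⟩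
      rw [← e] at ha
      exact (Finset.mem_inter.mp ha).1
  refine ⟨X.filter (fun w => w ∈ A), Finset.filter_subset _ _, ?_, ?_, ?_⟩
  · obtain ⟨a, ha⟩ := hAn
    obtain ⟨w, hw, haw⟩ := Finset.mem_biUnion.mp (hAB ha)
    exact ⟨w, Finset.mem_filter.mpr ⟨hw, (hall w hw a haw).mp ha⟩⟩
  · intro he
    apply hAne
    apply Finset.Subset.antisymm hAB
    intro b hb
    obtain ⟨w, hw, hbw⟩ := Finset.mem_biUnion.mp hb
    have hwY : w ∈ X.filter (fun w => w ∈ A) := by rw [he]; exact hw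
    exact (hall w hw b hbw).mpr (Finset.mem_filter.mp hwY).2
  · refine lt_of_le_of_lt ?_ hcut
    set Y := X.filter (fun w => w ∈ A) with hY
    have hYm : ∀ w ∈ Y, w ∈ X ∧ w ∈ A := fun w hw => Finset.mem_filter.mp hw
    have hZm : ∀ w ∈ X \ Y, w ∈ X ∧ w ∉ A := by
      intro w hw
      rw [Finset.mem_sdiff] at hw
      exact ⟨hw.1, fun h => hw.2 (Finset.mem_filter.mpr ⟨hw.1, h⟩)⟩
    rw [← Finset.sum_product']
    have e : ∀ z : V × V, nd2 H p z.1 z.2
        = (Finset.univ.filter fun q : V × V => p q.1 = z.1 ∧ p q.2 = z.2 ∧ H.Adj q.1 q.2).card := by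
      intro z
      unfold nd2 cnt
      apply congrArg Finset.card
      ext q
      simp only [Finset.mem_filter]
    have hdisj : ((Y ×ˢ (X \ Y) : Finset (V × V)) : Set (V × V)).PairwiseDisjoint
        (fun z : V × V => Finset.univ.filter fun q : V × V =>
          p q.1 = z.1 ∧ p q.2 = z.2 ∧ H.Adj q.1 q.2) := by
      intro z _ z' _ hzz
      rw [Function.onFun, Finset.disjoint_left]
      intro q hq hq'
      simp only [Finset.mem_filter, Finset.mem_univ, true_and] at hq hq'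
      exact hzz (Prod.ext (hq.1.symm.trans hq'.1) (hq.2.1.symm.trans hq'.2.1))
    have e2 : ∑ z ∈ Y ×ˢ (X \ Y), nd2 H p z.1 z.2
        = ((Y ×ˢ (X \ Y)).biUnion fun z : V × V => Finset.univ.filter fun q : V × V =>
          p q.1 = z.1 ∧ p q.2 = z.2 ∧ H.Adj q.1 q.2).card := by
      rw [Finset.card_biUnion hdisj]
      exact Finset.sum_congr rfl fun z _ => e z
    rw [e2]
    unfold cut cnt
    refine Finset.card_le_card ?_
    intro q hq
    simp only [Finset.mem_biUnion, Finset.mem_filter, Finset.mem_univ, true_and,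
      Finset.mem_product] at hq ⊢
    obtain ⟨z, ⟨hz1, hz2⟩, hq1, hq2, hadj⟩ := hq
    have m1 : q.1 ∈ nde p z.1 := (mem_nde _ _ _).mpr hq1
    have m2 : q.2 ∈ nde p z.2 := (mem_nde _ _ _).mpr hq2
    obtain ⟨a1, a2⟩ := hYm _ hz1
    obtain ⟨b1, b2⟩ := hZm _ hz2
    exact ⟨(hall _ a1 _ m1).mpr a2, fun h => b2 ((hall _ b1 _ m2).mp h), hadj,
      hsub _ a1 m1, hsub _ b1 m2⟩

end Pool.Agent.MDG.H59
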